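import Pool.Agent.helper62.DP8.Spec

set_option autoImplicit false

namespace Pool.Agent.helper62.DP8

theorem COM : COM_stmt := by
  intro V G hG W R L hW hC hL
  have key : ∀ c : G.ConnectedComponent, ∃ f : c.supp → W, (∀ v, f v ∈ L v.1) ∧ ∀ u v, u ≠ v → ¬ R (f u) (f v) := by
    intro c
    refine hG c W R (fun x => L x.1) hW ⟨hC.symm, ?_, ?_⟩ (fun v => hL v.1)
    · intro u v huv a ha b hb b' hb' h1 h2
      exact hC.mat u.1 v.1 (fun h => huv (Subtype.ext h)) a ha b hb b' hb' h1 h2
    · intro u v huv hn a ha b hb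
      refine hC.non u.1 v.1 (fun h => huv (Subtype.ext h)) ?_ a ha b hb
      rintro ⟨-, h | ⟨z, h1, h2⟩⟩
      · exact hn ⟨huv, Or.inl (by simpa using h)⟩
      · have hz : z ∈ c.supp := by
          have hu : G.connectedComponentMk u.1 = c := u.2
          rw [SimpleGraph.ConnectedComponent.mem_supp_iff, ← hu]
          exact SimpleGraph.ConnectedComponent.sound h1.symm.reachable
        exact hn ⟨huv, Or.inr ⟨⟨z, hz⟩, by simpa using h1, by simpa using h2⟩⟩
  choose f hf1 hf2 using key
  refine ⟨fun v => f (G.connectedComponentMk v) ⟨v, rfl⟩, fun v => hf1 _ _, ?_⟩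
  intro u v huv
  by_cases hc : G.connectedComponentMk u = G.connectedComponentMk v
  · have h1 : ∀ (c : G.ConnectedComponent) (hv : G.connectedComponentMk v = c), f (G.connectedComponentMk v) ⟨v, rfl⟩ = f c ⟨v, hv⟩ := by
      intro c hv
      subst hv
      rfl
    show ¬ R (f (G.connectedComponentMk u) ⟨u, rfl⟩) (f (G.connectedComponentMk v) ⟨v, rfl⟩)
    rw [h1 _ hc.symm]
    exact hf2 _ _ _ (fun h => huv (congrArg Subtype.val h))
  · refine hC.non u v huv ?_ _ (hf1 _ ⟨u, rfl⟩) _ (hf1 _ ⟨v, rfl⟩)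
    rintro ⟨-, h | ⟨z, h1, h2⟩⟩
    · exact hc (SimpleGraph.ConnectedComponent.sound h.reachable)
    · exact hc (SimpleGraph.ConnectedComponent.sound (h1.reachable.trans h2.reachable))

end Pool.Agent.helper62.DP8
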